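import Pool.Agent.P.MP_a15892_an.CStar

set_option autoImplicit false

open scoped ComplexOrder

namespace Pool.Agent.Results.MP_a15892_an.NotStable

/-- The `n × n` Toeplitz matrix `[y (i - j)]`, as an element of the C⋆-algebra `Mⁿˣⁿ(A)`. -/
def toeplitz {A : Type} (n : ℕ) (y : ℤ → A) : CStarMatrix (Fin n) (Fin n) A :=
  CStarMatrix.ofMatrix (Matrix.of fun i j : Fin n => y ((i : ℤ) - (j : ℤ)))

/-- The positive Toeplitz completion class: every positive `k × k` Toeplitz matrix over `A`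
extends to a positive `n × n` Toeplitz matrix over `A`, for all `0 < k < n`. -/
def PTC (A : Type) [NonUnitalCStarAlgebra A] [PartialOrder A] [StarOrderedRing A] : Prop :=
  ∀ k n : ℕ, 0 < k → k < n → ∀ a : ℤ → A, 0 ≤ toeplitz k a →
    ∃ y : ℤ → A, 0 ≤ toeplitz n y ∧ ∀ l : ℤ, |l| ≤ (k : ℤ) - 1 → y l = a l

/-- `C([-1,1], ℂ)` lies in the class, the `2 × 2` matrices over it do not. -/
theorem result :
    PTC C(Set.Icc (-1 : ℝ) 1, ℂ) ∧
      ¬ PTC (CStarMatrix (Fin 2) (Fin 2) C(Set.Icc (-1 : ℝ) 1, ℂ)) := by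
  refine ⟨fun k n hk hn a ha => Pool.Agent.P.MP_a15892_an.ptc_CX k n hk hn a ha, fun h => ?_⟩
  obtain ⟨y, hy, hl⟩ := h 2 3 (by norm_num) (by norm_num) _ Pool.Agent.P.MP_a15892_an.aa_nonneg
  exact Pool.Agent.P.MP_a15892_an.no_completion y hy hl

end Pool.Agent.Results.MP_a15892_an.NotStable
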